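import Pool.Agent.D0H56.MD.Defs

/-!
# Project MD, module FROB
-/

set_option autoImplicit false

open Module Polynomial NumberField

namespace Pool.Agent.D0H15.MD

open Pool.Agent.D0H56.MD

/-- algebraic integers lie in every valuation ring -/
theorem int_mem (O : ValuationSubring ℂ) {z : ℂ} (hz : IsIntegral ℤ z) : z ∈ O := by
  have h1 : IsIntegral O z := hz.tower_top
  obtain ⟨y, hy⟩ := (IsIntegrallyClosed.isIntegral_iff (R := O) (K := ℂ)).1 h1
  rw [← hy]
  exact y.2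

theorem t_FROB : S_FROB := by
  classical
  intro K _ _ x y p O hx hy hp hO σ
  have hsp : ∀ x : K, ((minpoly ℚ x).map (algebraMap ℚ ℂ)).Splits := fun x => IsAlgClosed.splits _
  let E : IntermediateField ℚ ℂ := IntermediateField.normalClosure ℚ K ℂ
  have hne : IsNormalClosure ℚ K E := Algebra.IsAlgebraic.isNormalClosure_normalClosure hsp
  have hnor : Normal ℚ E := IsNormalClosure.normal (F := ℚ) (K := K)
  have hfd : FiniteDimensional ℚ E := normalClosure.is_finiteDimensional ℚ K ℂ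
  have : NumberField E := { to_finiteDimensional := hfd }
  have : IsGalois ℚ E := ⟨⟩
  have hinv : Algebra.IsInvariant ℤ (𝓞 E) (𝓞 E ≃ₐ[ℤ] 𝓞 E) :=
    Algebra.isInvariant_of_isGalois' ℤ ℚ E (𝓞 E)
  have : Finite (𝓞 E ≃ₐ[ℤ] 𝓞 E) :=
    Finite.of_equiv _ (galRestrict ℤ ℚ E (𝓞 E)).toEquiv
  -- the map to O
  have hmem : ∀ a : 𝓞 E, ((a : E) : ℂ) ∈ O := by
    intro a
    apply int_mem
    exact (RingOfIntegers.isIntegral_coe a).map (IsScalarTower.toAlgHom ℤ E ℂ)
  let j : 𝓞 E →+* O :=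
    { toFun := fun a => ⟨((a : E) : ℂ), hmem a⟩
      map_one' := by ext; simp
      map_zero' := by ext; simp
      map_mul' := by intro a b; ext; simp
      map_add' := by intro a b; ext; simp }
  let Q : Ideal (𝓞 E) := (IsLocalRing.maximalIdeal O).comap j
  have : Q.IsPrime := Ideal.comap_isPrime j _
  have hjv : ∀ a : 𝓞 E, a ∈ Q ↔ O.valuation ((a : E) : ℂ) < 1 := by
    intro a
    exact ValuationSubring.valuation_lt_one_iff O (j a)
  have hpQ : (p : 𝓞 E) ∈ Q := by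
    rw [hjv]
    simpa using hO
  have hQ0 : Q ≠ ⊥ := by
    intro h
    rw [h, Ideal.mem_bot] at hpQ
    exact hp.ne_zero (by exact_mod_cast hpQ)
  have : Finite (𝓞 E ⧸ Q) := Ring.HasFiniteQuotients.finiteQuotient hQ0
  obtain ⟨φ, hφ⟩ := IsArithFrobAt.exists_of_isInvariant ℤ (𝓞 E ≃ₐ[ℤ] 𝓞 E) Q
  have hunder : Q.under ℤ = Ideal.span {(p : ℤ)} := by
    have hle : Ideal.span {(p : ℤ)} ≤ Q.under ℤ := by
      rw [Ideal.span_singleton_le_iff_mem, Ideal.mem_comap]
      simpa using hpQ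
    have hmax : (Ideal.span {(p : ℤ)}).IsMaximal :=
      PrincipalIdealRing.isMaximal_of_irreducible (Nat.prime_iff_prime_int.1 hp).irreducible
    exact (hmax.eq_of_le (Ideal.IsPrime.ne_top inferInstance) hle).symm
  have hcard : Nat.card (ℤ ⧸ Q.under ℤ) = p := by
    rw [hunder]
    have := Int.card_ideal_quot p
    simpa using this
  let τ : Gal(E/ℚ) := (galRestrict ℤ ℚ E (𝓞 E)).symm φ
  let σ₀ : K →ₐ[ℚ] ℂ := σ.toRatAlgHom
  have hr : ∀ z : K, σ₀ z ∈ E := fun z => AlgHom.fieldRange_le_normalClosure σ₀ ⟨z, rfl⟩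
  let σ₁ : K →ₐ[ℚ] E := σ₀.codRestrict E.toSubalgebra hr
  have key : ∀ z : K, IsIntegral ℤ z →
      O.valuation ((σ z) ^ p - ((τ (σ₁ z) : E) : ℂ)) < 1 := by
    intro z hz
    let a : 𝓞 E := ⟨σ₁ z, hz.map (σ₁ : K →+* E).toIntAlgHom⟩
    have h1 := hφ a
    rw [hcard, hjv] at h1
    have h2 : ((MulSemiringAction.toAlgHom ℤ (𝓞 E) φ a : 𝓞 E) : E) = τ (σ₁ z) := by
      have := algebraMap_galRestrict_apply ℤ (K := ℚ) (L := E) (B := 𝓞 E) τ a
      simp only [τ, MulEquiv.apply_symm_apply] at this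
      exact this
    have h3 : (((MulSemiringAction.toAlgHom ℤ (𝓞 E) φ a - a ^ p : 𝓞 E) : E) : ℂ) =
        ((τ (σ₁ z) : E) : ℂ) - (σ z) ^ p := by
      have hc : ∀ u v : 𝓞 E, (((u - v ^ p : 𝓞 E) : E) : ℂ) = ((u : E) : ℂ) - ((v : E) : ℂ) ^ p := by
        intro u v
        push_cast
        rfl
      rw [hc, h2]
      rfl
    rw [h3, Valuation.map_sub_swap] at h1
    exact h1
  exact ⟨((E.val.comp τ.toAlgHom).comp σ₁).toRingHom, key x hx, key y hy⟩

end Pool.Agent.D0H15.MD
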