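import Pool.Agent.D0H56.MD.Defs

/-!
# Project MD, module NEWT
-/

set_option autoImplicit false

open Module Polynomial

namespace Pool.Agent.D0H15.MD

open Pool.Agent.D0H56.MD

/-- `f(r^p) = f(r)^p + p k` -/
theorem frob_cong (g : ℤ[X]) {p : ℕ} (hp : p.Prime) {R : Type} [CommRing R] (r : R) :
    ∃ k : R, aeval (r ^ p) g = (aeval r g) ^ p + p * k := by
  have : Fact p.Prime := ⟨hp⟩
  have h1 : (expand ℤ p g - g ^ p).map (Int.castRingHom (ZMod p)) = 0 := by
    rw [Polynomial.map_sub, Polynomial.map_pow, map_expand, ZMod.expand_card, sub_self]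
  have h2 : C (p : ℤ) ∣ expand ℤ p g - g ^ p := by
    rw [C_dvd_iff_dvd_coeff]
    intro i
    have h3 := congrArg (fun q => coeff q i) h1
    simp only [coeff_map, coeff_zero] at h3
    exact (ZMod.intCast_zmod_eq_zero_iff_dvd _ p).1 h3
  obtain ⟨q, hq⟩ := h2
  refine ⟨aeval r q, ?_⟩
  have h4 := congrArg (aeval r) hq
  rw [map_sub, map_pow, expand_aeval, map_mul] at h4
  rw [sub_eq_iff_eq_add] at h4
  rw [h4]
  simp
  ring

theorem t_NEWT : S_NEWT := by
  intro f p O r z hf hp hO hr hz hrz hdr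
  have hint : ∀ w : ℂ, aeval w f = 0 → w ∈ O := by
    intro w hw
    have h0 : IsIntegral ℤ w := ⟨f, hf, by simpa [aeval_def] using hw⟩
    have h1 : IsIntegral O w := h0.tower_top
    obtain ⟨y, hy⟩ := (IsIntegrallyClosed.isIntegral_iff (R := O) (K := ℂ)).1 h1
    rw [← hy]
    exact y.2
  let R : O := ⟨r, hint r hr⟩
  let Z : O := ⟨z, hint z hz⟩
  have hinj : Function.Injective (algebraMap O ℂ) := Subtype.val_injective
  have hcoe : ∀ (a : O) (g : ℤ[X]), ((aeval a g : O) : ℂ) = aeval (a : ℂ) g := by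
    intro a g
    exact (aeval_algebraMap_apply ℂ a g).symm
  have hR : aeval R f = 0 := by
    apply hinj
    rw [map_zero]
    exact (hcoe R f).trans hr
  have hZ : aeval Z f = 0 := by
    apply hinj
    rw [map_zero]
    exact (hcoe Z f).trans hz
  set m := IsLocalRing.maximalIdeal O with hm
  have hpm : (p : O) ∈ m := by
    rw [hm, ValuationSubring.valuation_lt_one_iff]
    simpa using hO
  have hRZ : R ^ p - Z ∈ m := by
    rw [hm, ValuationSubring.valuation_lt_one_iff]
    simpa [R, Z] using hrz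
  have hdR : aeval R (derivative f) ∉ m := by
    rw [hm, ValuationSubring.valuation_lt_one_iff, hcoe]
    exact hdr
  obtain ⟨k1, hk1⟩ := frob_cong f hp R
  obtain ⟨k2, hk2⟩ := frob_cong (derivative f) hp R
  rw [hR, zero_pow hp.ne_zero, zero_add] at hk1
  -- Taylor
  have hT : ∀ g : ℤ[X], ∃ k : O, aeval (R ^ p) g = aeval Z g +
      aeval Z (derivative g) * (R ^ p - Z) + k * (R ^ p - Z) ^ 2 := by
    intro g
    obtain ⟨k, hk⟩ := Polynomial.binomExpansion (g.map (algebraMap ℤ O)) Z (R ^ p - Z)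
    refine ⟨k, ?_⟩
    rw [add_sub_cancel, derivative_map, eval_map_algebraMap, eval_map_algebraMap,
      eval_map_algebraMap] at hk
    exact hk
  obtain ⟨k3, hk3⟩ := hT f
  obtain ⟨k4, hk4⟩ := hT (derivative f)
  -- the unit
  have hu : aeval Z (derivative f) + k3 * (R ^ p - Z) ∉ m := by
    intro h
    have h1 : (aeval R (derivative f)) ^ p ∈ m := by
      have h2 : (aeval R (derivative f)) ^ p = (aeval Z (derivative f) + k3 * (R ^ p - Z)) +
          (aeval Z (derivative (derivative f)) + k4 * (R ^ p - Z) - k3) * (R ^ p - Z) -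
          k2 * p := by
        have : (aeval R (derivative f)) ^ p = aeval (R ^ p) (derivative f) - p * k2 := by
          rw [hk2]; ring
        rw [this, hk4]
        ring
      rw [h2]
      exact m.sub_mem (m.add_mem h (m.mul_mem_left _ hRZ)) (m.mul_mem_left _ hpm)
    exact hdR ((IsLocalRing.maximalIdeal.isMaximal O).isPrime.mem_of_pow_mem p h1)
  have hunit : IsUnit (aeval Z (derivative f) + k3 * (R ^ p - Z)) := by
    by_contra hn
    exact hu ((IsLocalRing.mem_maximalIdeal _).2 hn)
  obtain ⟨v, hv⟩ := hunit.exists_right_inv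
  have hfin : R ^ p - Z = p * (k1 * v) := by
    have h1 : (R ^ p - Z) * (aeval Z (derivative f) + k3 * (R ^ p - Z)) = p * k1 := by
      rw [← hk1, hk3, hZ]
      ring
    calc R ^ p - Z = (R ^ p - Z) * ((aeval Z (derivative f) + k3 * (R ^ p - Z)) * v) := by
          rw [hv, mul_one]
      _ = p * (k1 * v) := by rw [← mul_assoc, h1]; ring
  refine ⟨((k1 * v : O) : ℂ), (k1 * v).2, ?_⟩
  have := congrArg Subtype.val hfin
  simpa [R, Z] using this

end Pool.Agent.D0H15.MD
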