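import Pool.Agent.D0H56.MD.Defs

/-!
# Project MD, module VAL
-/

set_option autoImplicit false

open Module Polynomial

namespace Pool.Agent.D0H15.MD

open Pool.Agent.D0H56.MD

theorem t_VAL : S_VAL := by
  intro p hp
  let A : Subring ℂ := (Int.castRingHom ℂ).range
  let x : A := ⟨(p : ℂ), ⟨(p : ℤ), by simp⟩⟩
  have hI : (Ideal.span {x} : Ideal A) ≠ ⊤ := by
    intro h
    rw [Ideal.span_singleton_eq_top] at h
    obtain ⟨y, hy⟩ := h.exists_right_inv
    obtain ⟨_, m, rfl⟩ := y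
    have h1 : (p : ℂ) * (m : ℂ) = 1 := by
      have := congrArg Subtype.val hy
      simpa [x] using this
    have h2 : (p : ℤ) * m = 1 := by exact_mod_cast h1
    have h3 : (p : ℤ) ∣ 1 := ⟨m, h2.symm⟩
    have h4 : p ∣ 1 := by exact_mod_cast h3
    exact hp.one_lt.ne' (Nat.dvd_one.1 h4)
  obtain ⟨B, hB⟩ := Ideal.image_subset_nonunits_valuationSubring _ hI
  refine ⟨B, ?_⟩
  rw [← ValuationSubring.mem_nonunits_iff]
  have hx : (x : ℂ) ∈ (fun a : A => (a : ℂ)) '' (Ideal.span {x} : Ideal A) :=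
    ⟨x, Ideal.mem_span_singleton_self x, rfl⟩
  exact hB.2 hx

end Pool.Agent.D0H15.MD
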